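import Pool.Agent.Helper77.Robin.Final
import Pool.Agent.Helper77.Robin.Exist

/-!
# A convex domain on which no Robin ground state is log-concave

For every dimension `d ≥ 2` there is a bounded convex domain `Ω ⊆ ℝ^d` such that, for every
`α > 0`, the first Robin eigenfunction of `Ω` with parameter `α` exists and is not log-concave.

The domain is (a product with a cube of) a convex polygon with infinitely many sides which
accumulate at a corner. Suppose that `u` is log-concave. Along every side the Robin condition
forces the slope of `log u` in the direction of the inner normal to be exactly `α` in the limit,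
and `log u` is semiconvex up to the boundary near the corner, hence its gradient is Lipschitz
there. At the vertex between two consecutive sides with inner normals `ν`, `ν'` this gives
`⟨p, ν - ν'⟩ = O(dist)` for the gradient `p`, and letting the vertices tend to the corner gives
`⟨p, e₀⟩ = 0` there, while the side `x₀ = 0` gives `⟨p, e₀⟩ = α` at the same corner.

Existence of the first eigenfunction is proved for all bounded convex domains: minimising
sequences are precompact by a Poincaré inequality on convex sets, and positivity follows from the
logarithmic estimate for supersolutions.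
-/

set_option autoImplicit false

namespace Pool.Agent.Results.MP_c1ff29_an.RobinNeverLogConcave

open Pool.Agent.Helper77.Robin

theorem result (d : ℕ) (hd : 2 ≤ d) :
    ∃ Ω : Set (EuclideanSpace ℝ (Fin d)),
      IsOpen Ω ∧ Convex ℝ Ω ∧ Bornology.IsBounded Ω ∧ Ω.Nonempty ∧
      ∀ α : ℝ, 0 < α →
        (∃ u : EuclideanSpace ℝ (Fin d) → ℝ, IsFirstRobinEigenfunction Ω α u) ∧
        ∀ u : EuclideanSpace ℝ (Fin d) → ℝ, IsFirstRobinEigenfunction Ω α u →
          ¬ ConcaveOn ℝ Ω (fun x => Real.log (u x)) := by
  obtain ⟨n, rfl⟩ : ∃ n, d = n + 1 + 1 := ⟨d - 2, by omega⟩
  exact ⟨dom n, isOpen_dom, convex_dom, isBounded_dom, dom_nonempty, fun α hα =>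
    ⟨exists_firstRobinEigenfunction isOpen_dom convex_dom dom_nonempty isBounded_dom hα,
      fun u hu => not_logConcave n hα hu⟩⟩

end Pool.Agent.Results.MP_c1ff29_an.RobinNeverLogConcave
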